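import Mathlib

/-!
# The integers with the square-free predicates are not MS-measurable
-/

namespace Pool.Agent.Results.MP_c6a6a6_lc.NotMSMeasurable

open FirstOrder Set

universe u

/-- The function symbols: the constant `1`, the unary symbol `-` and the binary symbol `+`. -/
inductive Fn : ℕ → Type
  | one : Fn 0
  | neg : Fn 1
  | add : Fn 2

/-- The relation symbols: unary predicates `P_m` for `m ≥ 1` and `U_{p,l}` for `p` prime and `l` an
integer. -/
inductive Rl : ℕ → Type
  | P (m : ℕ+) : Rl 1
  | U (p : Nat.Primes) (l : ℤ) : Rl 1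

/-- The language `{+, -, 1, (P_m), (U_{p,l})}`. -/
def L : Language := ⟨Fn, Rl⟩

/-- The integers as a structure in the language `L`: `P_m` is the set of the `a` such that
`v_p(a) < 2 + v_p(m)` for all primes `p`, that is, `p ^ (2 + v_p(m))` does not divide `a`, and
`U_{p,l}` is the set of the `a` with `v_p(a) ≥ l`, that is, `p ^ max(l, 0)` divides `a`. -/
instance : L.Structure ℤ where
  funMap {n} f := match n, f with
    | _, Fn.one => fun _ => 1
    | _, Fn.neg => fun v => -(v 0)
    | _, Fn.add => fun v => v 0 + v 1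
  RelMap {n} r := match n, r with
    | _, Rl.P m => fun v => ∀ p : ℕ, p.Prime → ¬ ((p : ℤ) ^ (2 + padicValNat p m) ∣ v 0)
    | _, Rl.U p l => fun v => ((p : ℕ) : ℤ) ^ l.toNat ∣ v 0

/-- The theory `T_Sqf`: the complete theory of the integers in the language `L`. -/
def TSqf : L.Theory := L.completeTheory ℤ

/-- A set of `n`-tuples definable with parameters. -/
def Dfn (M : Type u) [L.Structure M] {n : ℕ} (X : Set (Fin n → M)) : Prop :=
  (univ : Set M).Definable L X

/-- A measuring function on the sets definable with parameters in the structure `M` (values at sets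
that are not definable play no role), satisfying the conditions of Macpherson and Steinhorn. -/
structure MSMeasure (M : Type u) [L.Structure M] where
  /-- the pair `(dimension, measure)` -/
  h : ∀ n : ℕ, Set (Fin n → M) → ℕ × ℝ
  /-- the values are in `(ℕ × ℝ_{>0}) ∪ {(0, 0)}` -/
  range : ∀ n : ℕ, 1 ≤ n → ∀ X : Set (Fin n → M), Dfn M X → 0 < (h n X).2 ∨ h n X = (0, 0)
  /-- in a definable family only finitely many values are taken -/
  finite_values : ∀ n k : ℕ, 1 ≤ n → ∀ φ : L.Formula (Fin n ⊕ Fin k),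
    {v : ℕ × ℝ | ∃ b : Fin k → M, h n {x | φ.Realize (Sum.elim x b)} = v}.Finite
  /-- each of the values is taken on a set definable without parameters -/
  definable_levels : ∀ n k : ℕ, 1 ≤ n → ∀ φ : L.Formula (Fin n ⊕ Fin k), ∀ v : ℕ × ℝ,
    (∅ : Set M).Definable L {b : Fin k → M | h n {x | φ.Realize (Sum.elim x b)} = v}
  /-- the value at a finite set -/
  finite_sets : ∀ n : ℕ, 1 ≤ n → ∀ X : Set (Fin n → M), X.Finite → h n X = (0, (X.ncard : ℝ))
  /-- the Fubini property for a definable surjection `f` from `X` onto `Y`; the parts `Z i` of the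
  partition of `Y` are not empty -/
  fubini : ∀ n m : ℕ, 1 ≤ n → 1 ≤ m → ∀ (X : Set (Fin n → M)) (Y : Set (Fin m → M))
    (f : (Fin n → M) → (Fin m → M)), Dfn M X → Dfn M Y → f '' X = Y →
    (univ : Set M).Definable L {v : Fin n ⊕ Fin m → M | v ∘ Sum.inl ∈ X ∧
      f (v ∘ Sum.inl) = v ∘ Sum.inr} →
    ∃ (r : ℕ) (Z : Fin r → Set (Fin m → M)) (v : Fin r → ℕ × ℝ),
      (∀ i, (Z i).Nonempty) ∧ (∀ i, Dfn M (Z i)) ∧ (∀ i j, i ≠ j → Disjoint (Z i) (Z j)) ∧
      (⋃ i, Z i) = Y ∧ (∀ i, ∀ y ∈ Z i, h n {x | x ∈ X ∧ f x = y} = v i) ∧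
      ∀ c : ℕ, c = (Finset.univ.sup fun i => (v i).1 + (h m (Z i)).1) →
        h n X = (c, ∑ i with (v i).1 + (h m (Z i)).1 = c, (v i).2 * (h m (Z i)).2)

/-- A theory is MS-measurable if it has a model (a nonempty structure satisfying it) with a
measuring function. -/
def MSMeasurable (T : L.Theory) : Prop :=
  ∃ (M : Type u) (_ : L.Structure M), Nonempty M ∧ M ⊨ T ∧ Nonempty (MSMeasure M)

/-- The term `1`. -/
def tone {α : Type} : L.Term α := Language.Term.func (L := L) (l := 0) Fn.one Fin.elim0
/-- The sum of two terms. -/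
def tadd {α : Type} (s t : L.Term α) : L.Term α :=
  Language.Term.func (L := L) (l := 2) Fn.add ![s, t]

section Model

variable {M : Type u} [L.Structure M]

/-- the element `1` of a structure -/
def one (M : Type u) [L.Structure M] : M :=
  Language.Structure.funMap (L := L) (n := 0) Fn.one Fin.elim0
/-- the addition of a structure -/
def ad (x y : M) : M := Language.Structure.funMap (L := L) (n := 2) Fn.add ![x, y]

theorem realize_one {α : Type} (v : α → M) : (tone : L.Term α).realize v = one M := by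
  simp only [tone, Language.Term.realize, one]
  congr 1
  exact Subsingleton.elim _ _

theorem realize_add {α : Type} (v : α → M) (s t : L.Term α) :
    (tadd s t).realize v = ad (s.realize v) (t.realize v) := by
  simp only [tadd, Language.Term.realize, ad]
  congr 1
  funext i
  fin_cases i <;> rfl

end Model

/-- what is needed of a model -/
structure Facts (M : Type u) [L.Structure M] : Prop where
  dbl_inj : ∀ x y : M, ad x x = ad y y → x = y
  dbl1_inj : ∀ x y : M, ad (ad x x) (one M) = ad (ad y y) (one M) → x = y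
  cover : ∀ x : M, ∃ y : M, ad y y = x ∨ ad (ad y y) (one M) = x
  disj : ∀ x y : M, ad x x ≠ ad (ad y y) (one M)
  ne : one M ≠ ad (one M) (one M)

section Sentences

open Language

/-- a variable in a bounded formula -/
def bv {n : ℕ} (i : Fin n) : L.Term (Empty ⊕ Fin n) := Language.Term.var (Sum.inr i)

/-- doubling is injective -/
def s1 : L.Sentence :=
  BoundedFormula.all (BoundedFormula.all (BoundedFormula.imp
    (Term.bdEqual (tadd (bv (n := 2) 0) (bv 0)) (tadd (bv 1) (bv 1))) (Term.bdEqual (bv 0) (bv 1))))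

/-- doubling and adding one is injective -/
def s2 : L.Sentence :=
  BoundedFormula.all (BoundedFormula.all (BoundedFormula.imp
    (Term.bdEqual (tadd (tadd (bv (n := 2) 0) (bv 0)) tone) (tadd (tadd (bv 1) (bv 1)) tone))
    (Term.bdEqual (bv 0) (bv 1))))

/-- all elements are even or odd -/
def s3 : L.Sentence :=
  BoundedFormula.all (BoundedFormula.ex
    ((Term.bdEqual (tadd (bv (n := 2) 1) (bv 1)) (bv 0)) ⊔
      (Term.bdEqual (tadd (tadd (bv 1) (bv 1)) tone) (bv 0))))

/-- no element is even and odd -/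
def s4 : L.Sentence :=
  BoundedFormula.all (BoundedFormula.all (BoundedFormula.not
    (Term.bdEqual (tadd (bv (n := 2) 0) (bv 0)) (tadd (tadd (bv 1) (bv 1)) tone))))

/-- one is not two -/
def s5 : L.Sentence :=
  BoundedFormula.not (Term.bdEqual (n := 0) (tone : L.Term (Empty ⊕ Fin 0)) (tadd tone tone))

variable {M : Type u} [L.Structure M]

theorem realize_s1 : M ⊨ s1 ↔ ∀ x y : M, ad x x = ad y y → x = y := by
  simp only [s1, Sentence.Realize, Formula.Realize, BoundedFormula.realize_all,
    BoundedFormula.realize_imp, BoundedFormula.realize_bdEqual, realize_add, bv,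
    Term.realize_var, Sum.elim_inr]
  rfl

theorem realize_s2 : M ⊨ s2 ↔
    ∀ x y : M, ad (ad x x) (one M) = ad (ad y y) (one M) → x = y := by
  simp only [s2, Sentence.Realize, Formula.Realize, BoundedFormula.realize_all,
    BoundedFormula.realize_imp, BoundedFormula.realize_bdEqual, realize_add, realize_one, bv,
    Term.realize_var, Sum.elim_inr]
  rfl

theorem realize_s3 : M ⊨ s3 ↔ ∀ x : M, ∃ y : M, ad y y = x ∨ ad (ad y y) (one M) = x := by
  simp only [s3, Sentence.Realize, Formula.Realize, BoundedFormula.realize_all,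
    BoundedFormula.realize_ex, BoundedFormula.realize_sup,
    BoundedFormula.realize_bdEqual, realize_add, realize_one, bv,
    Term.realize_var, Sum.elim_inr]
  rfl

theorem realize_s4 : M ⊨ s4 ↔ ∀ x y : M, ad x x ≠ ad (ad y y) (one M) := by
  simp only [s4, Sentence.Realize, Formula.Realize, BoundedFormula.realize_all,
    BoundedFormula.realize_not, BoundedFormula.realize_bdEqual, realize_add, realize_one, bv,
    Term.realize_var, Sum.elim_inr]
  rfl

theorem realize_s5 : M ⊨ s5 ↔ one M ≠ ad (one M) (one M) := by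
  simp only [s5, Sentence.Realize, Formula.Realize,
    BoundedFormula.realize_not, BoundedFormula.realize_bdEqual, realize_add, realize_one]

end Sentences

theorem ad_int (x y : ℤ) : ad x y = x + y := rfl

theorem one_int : one ℤ = 1 := rfl

theorem facts (M : Type u) [L.Structure M] (hM : M ⊨ TSqf) : Facts M := by
  have key : ∀ s : L.Sentence, ℤ ⊨ s → M ⊨ s := by
    intro s hs
    exact hM.realize_of_mem s hs
  refine ⟨realize_s1.1 (key _ (realize_s1.2 ?_)), realize_s2.1 (key _ (realize_s2.2 ?_)),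
    realize_s3.1 (key _ (realize_s3.2 ?_)), realize_s4.1 (key _ (realize_s4.2 ?_)),
    realize_s5.1 (key _ (realize_s5.2 ?_))⟩
  · intro x y h; rw [ad_int, ad_int] at h; omega
  · intro x y h; simp only [ad_int, one_int] at h; omega
  · intro x
    simp only [ad_int, one_int]
    rcases Int.even_or_odd' x with ⟨k, hk | hk⟩
    · exact ⟨k, Or.inl (by omega)⟩
    · exact ⟨k, Or.inr (by omega)⟩
  · intro x y h; simp only [ad_int, one_int] at h; omega
  · simp only [ad_int, one_int]; omega

section Contradiction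

variable {M : Type u} [L.Structure M]

theorem dfn_of_formula {α : Type} (A : Set M) (φ : L.Formula α) (s : Set (α → M))
    (h : ∀ v, v ∈ s ↔ φ.Realize v) : A.Definable L s := by
  have : (∅ : Set M).Definable L s := by
    rw [Set.empty_definable_iff]
    exact ⟨φ, Set.ext h⟩
  exact this.mono (Set.empty_subset _)

/-- the sum of values in the sense of dimension and measure -/
noncomputable def dsum {r : ℕ} (v : Fin r → ℕ × ℝ) : ℕ × ℝ :=
  (Finset.univ.sup fun i => (v i).1,
    ∑ i with (v i).1 = Finset.univ.sup fun i => (v i).1, (v i).2)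

/-- the `i`-th of `r` distinct elements of the `r`-th power -/
noncomputable def pt (M : Type u) [L.Structure M] {r : ℕ} (i : Fin r) : Fin r → M :=
  fun j => if j = i then one M else ad (one M) (one M)

theorem pt_inj (F : Facts M) {r : ℕ} {i j : Fin r} (h : (pt M i) = pt M j) : i = j := by
  by_contra hne
  have := congrFun h i
  simp [pt, hne] at this
  exact F.ne this

theorem dfn_eq_pt {α : Type} {r : ℕ} (i : Fin r) (g : Fin r → α) :
    (univ : Set M).Definable L {v : α → M | v ∘ g = pt M i} := by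
  have h1 : {v : α → M | v ∘ g = pt M i} = ⋂ j : Fin r, {v : α → M | v (g j) = pt M i j} := by
    ext v
    simp [funext_iff]
  rw [h1]
  have h2 : ∀ j : Fin r, (univ : Set M).Definable L {v : α → M | v (g j) = pt M i j} := by
    intro j
    by_cases hj : j = i
    · refine dfn_of_formula _ (Language.Term.equal (Language.Term.var (g j)) tone) _ fun v => ?_
      simp [pt, hj, Language.Formula.realize_equal, realize_one]
    · refine dfn_of_formula _ (Language.Term.equal (Language.Term.var (g j)) (tadd tone tone)) _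
        fun v => ?_
      simp [pt, hj, Language.Formula.realize_equal, realize_one, realize_add]
  exact Set.definable_iInter_of_finite h2

/-- additivity -/
theorem MSMeasure.additive (μ : MSMeasure M) (F : Facts M) {r : ℕ} (hr : 0 < r)
    (X : Set (Fin 1 → M)) (Z : Fin r → Set (Fin 1 → M)) (h1 : ∀ i, (Z i).Nonempty)
    (h2 : ∀ i, Dfn M (Z i)) (h3 : ∀ i j, i ≠ j → Disjoint (Z i) (Z j)) (h4 : (⋃ i, Z i) = X) :
    μ.h 1 X = dsum fun i => μ.h 1 (Z i) := by
  classical
  have hX : Dfn M X := by
    rw [← h4]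
    exact Set.definable_iUnion_of_finite h2
  let f : (Fin 1 → M) → (Fin r → M) := fun x =>
    if h : ∃ i, x ∈ Z i then pt M h.choose else pt M ⟨0, hr⟩
  have hf : ∀ i, ∀ x ∈ Z i, f x = pt M i := by
    intro i x hx
    have h : ∃ i, x ∈ Z i := ⟨i, hx⟩
    have h' : h.choose = i := by
      by_contra hne
      exact Set.disjoint_left.1 (h3 _ _ hne) h.choose_spec hx
    simp only [f, dif_pos h, h']
  set Y : Set (Fin r → M) := Set.range (pt M (r := r)) with hY
  have hYf : Y.Finite := Set.finite_range _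
  have himg : f '' X = Y := by
    rw [← h4]
    ext y
    constructor
    · rintro ⟨x, hx, rfl⟩
      obtain ⟨i, hi⟩ := Set.mem_iUnion.1 hx
      exact ⟨i, (hf i x hi).symm⟩
    · rintro ⟨i, rfl⟩
      obtain ⟨x, hx⟩ := h1 i
      exact ⟨x, Set.mem_iUnion.2 ⟨i, hx⟩, hf i x hx⟩
  have hdY : Dfn M Y := by
    have h5 : Y = ⋃ i, {v : Fin r → M | v ∘ id = pt M i} := by
      ext v
      simp [hY, eq_comm]
    rw [Dfn, h5]
    exact Set.definable_iUnion_of_finite (fun i => dfn_eq_pt (M := M) i (id : Fin r → Fin r))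
  have hgr : (univ : Set M).Definable L {v : Fin 1 ⊕ Fin r → M | v ∘ Sum.inl ∈ X ∧
      f (v ∘ Sum.inl) = v ∘ Sum.inr} := by
    have h5 : {v : Fin 1 ⊕ Fin r → M | v ∘ Sum.inl ∈ X ∧ f (v ∘ Sum.inl) = v ∘ Sum.inr} =
        ⋃ i, ({v : Fin 1 ⊕ Fin r → M | v ∘ Sum.inl ∈ Z i} ∩
          {v : Fin 1 ⊕ Fin r → M | v ∘ Sum.inr = pt M i}) := by
      ext v
      simp only [Set.mem_ofPred_eq, Set.mem_iUnion, Set.mem_inter_iff]
      constructor
      · rintro ⟨hx, hv⟩
        rw [← h4] at hx
        obtain ⟨i, hi⟩ := Set.mem_iUnion.1 hx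
        exact ⟨i, hi, by rw [← hv, hf i _ hi]⟩
      · rintro ⟨i, hi, hv⟩
        exact ⟨h4 ▸ Set.mem_iUnion.2 ⟨i, hi⟩, by rw [hf i _ hi, hv]⟩
    rw [h5]
    exact Set.definable_iUnion_of_finite
      (fun i => ((h2 i).preimage_comp (Sum.inl : Fin 1 → Fin 1 ⊕ Fin r)).inter
        (dfn_eq_pt (M := M) i (Sum.inr : Fin r → Fin 1 ⊕ Fin r)))
  obtain ⟨r', Z', v, g1, g2, g3, g4, g5, g6⟩ :=
    μ.fubini 1 r le_rfl hr X Y f hX hdY himg hgr
  have hfib : ∀ i, {x | x ∈ X ∧ f x = pt M i} = Z i := by
    intro i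
    ext x
    constructor
    · rintro ⟨hx, hfx⟩
      rw [← h4] at hx
      obtain ⟨j, hj⟩ := Set.mem_iUnion.1 hx
      rw [hf j x hj] at hfx
      rwa [pt_inj F hfx] at hj
    · intro hx
      exact ⟨h4 ▸ Set.mem_iUnion.2 ⟨i, hx⟩, hf i x hx⟩
  have hZfin : ∀ i', (Z' i').Finite := fun i' =>
    hYf.subset (g4 ▸ Set.subset_iUnion Z' i')
  have hZh : ∀ i', μ.h r (Z' i') = (0, ((Z' i').ncard : ℝ)) := fun i' =>
    μ.finite_sets r hr _ (hZfin i')
  -- the part of the `i`-th point
  have hex : ∀ i : Fin r, ∃ i', pt M i ∈ Z' i' := by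
    intro i
    have : pt M i ∈ ⋃ i', Z' i' := g4 ▸ ⟨i, rfl⟩
    exact Set.mem_iUnion.1 this
  choose p hp using hex
  have hpv : ∀ i, v (p i) = μ.h 1 (Z i) := by
    intro i
    rw [← g5 (p i) (pt M i) (hp i), hfib]
  have hpuniq : ∀ i i', pt M i ∈ Z' i' → p i = i' := by
    intro i i' hi
    by_contra hne
    exact Set.disjoint_left.1 (g3 _ _ hne) (hp i) hi
  have hsurj : Function.Surjective p := by
    intro i'
    obtain ⟨y, hy⟩ := g1 i'
    have : y ∈ Y := g4 ▸ Set.mem_iUnion.2 ⟨i', hy⟩
    obtain ⟨i, rfl⟩ := this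
    exact ⟨i, hpuniq i i' hy⟩
  have hcard : ∀ i', ((Z' i').ncard : ℝ) = ∑ i with p i = i', (1 : ℝ) := by
    intro i'
    have h5 : Z' i' = ((Finset.univ.filter fun i => p i = i').image (pt M (r := r)) :
        Finset (Fin r → M)) := by
      ext y
      simp only [Finset.coe_image, Finset.coe_filter, Finset.mem_univ, true_and, Set.mem_image,
        Set.mem_ofPred_eq]
      constructor
      · intro hy
        have : y ∈ Y := g4 ▸ Set.mem_iUnion.2 ⟨i', hy⟩
        obtain ⟨i, rfl⟩ := this
        exact ⟨i, hpuniq i i' hy, rfl⟩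
      · rintro ⟨i, rfl, rfl⟩
        exact hp i
    rw [h5, Set.ncard_coe_finset, Finset.card_image_of_injective _ (fun _ _ h => pt_inj F h)]
    simp
  have hsup : (Finset.univ.sup fun i' => (v i').1 + (μ.h r (Z' i')).1) =
      Finset.univ.sup fun i => (μ.h 1 (Z i)).1 := by
    simp only [hZh, add_zero]
    apply le_antisymm
    · apply Finset.sup_le
      intro i' _
      obtain ⟨i, rfl⟩ := hsurj i'
      rw [hpv]
      exact Finset.le_sup (f := fun i => (μ.h 1 (Z i)).1) (Finset.mem_univ i)
    · apply Finset.sup_le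
      intro i _
      rw [← hpv]
      exact Finset.le_sup (f := fun i' => (v i').1) (Finset.mem_univ (p i))
  rw [g6 _ hsup.symm, dsum]
  refine Prod.ext rfl ?_
  simp only [hZh, add_zero]
  set C := Finset.univ.sup fun i => (μ.h 1 (Z i)).1
  have h7 : ∀ i' : Fin r', (v i').2 * ((Z' i').ncard : ℝ) =
      ∑ i with p i = i', (μ.h 1 (Z i)).2 := by
    intro i'
    rw [hcard, Finset.mul_sum]
    apply Finset.sum_congr rfl
    intro i hi
    rw [Finset.mem_filter] at hi
    rw [← hpv, hi.2, mul_one]
  simp only [h7]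
  rw [Finset.sum_filter, Finset.sum_filter]
  have h8 : ∀ i' : Fin r', (if (v i').1 = C then ∑ i with p i = i', (μ.h 1 (Z i)).2 else 0) =
      ∑ i with p i = i', (if (μ.h 1 (Z i)).1 = C then (μ.h 1 (Z i)).2 else 0) := by
    intro i'
    split_ifs with h
    · apply Finset.sum_congr rfl
      intro i hi
      rw [Finset.mem_filter] at hi
      rw [if_pos]
      rw [← hpv, hi.2, h]
    · symm
      apply Finset.sum_eq_zero
      intro i hi
      rw [Finset.mem_filter] at hi
      rw [if_neg]
      rw [← hpv, hi.2]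
      exact h
  simp only [h8]
  exact Finset.sum_fiberwise_of_maps_to (g := p) (fun _ _ => Finset.mem_univ _) _

/-- a definable bijection preserves the value -/
theorem MSMeasure.bij (μ : MSMeasure M) (F : Facts M) (X Y : Set (Fin 1 → M))
    (f : (Fin 1 → M) → (Fin 1 → M)) (hne : X.Nonempty)
    (hX : Dfn M X) (hY : Dfn M Y) (hf : f '' X = Y) (hinj : Set.InjOn f X)
    (hgr : (univ : Set M).Definable L {v : Fin 1 ⊕ Fin 1 → M | v ∘ Sum.inl ∈ X ∧
      f (v ∘ Sum.inl) = v ∘ Sum.inr}) : μ.h 1 X = μ.h 1 Y := by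
  obtain ⟨r, Z, v, h1, h2, h3, h4, h5, h6⟩ :=
    μ.fubini 1 1 le_rfl le_rfl X Y f hX hY hf hgr
  have hv : ∀ i, v i = (0, 1) := by
    intro i
    obtain ⟨y, hy⟩ := h1 i
    rw [← h5 i y hy]
    have hyY : y ∈ Y := h4 ▸ Set.mem_iUnion.2 ⟨i, hy⟩
    rw [← hf] at hyY
    obtain ⟨x, hx, rfl⟩ := hyY
    have : {x' | x' ∈ X ∧ f x' = f x} = {x} := by
      ext z
      constructor
      · rintro ⟨hz, hzx⟩
        exact hinj hz hx hzx
      · rintro rfl
        exact ⟨hx, rfl⟩
    rw [this, μ.finite_sets 1 le_rfl _ (Set.finite_singleton _), Set.ncard_singleton]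
    simp
  have hr : 0 < r := by
    rcases Nat.eq_zero_or_pos r with rfl | h
    · exfalso
      have : Y = ∅ := by rw [← h4]; simp
      rw [this, Set.image_eq_empty] at hf
      exact hne.ne_empty hf
    · exact h
  rw [μ.additive F hr Y Z h1 h2 h3 h4, h6 _ rfl]
  simp [hv, dsum]

theorem dfn_univ : Dfn M (univ : Set (Fin 1 → M)) := Set.definable_univ

theorem not_measure (F : Facts M) (μ : MSMeasure M) : False := by
  classical
  let fE : (Fin 1 → M) → (Fin 1 → M) := fun x _ => ad (x 0) (x 0)
  let fO : (Fin 1 → M) → (Fin 1 → M) := fun x _ => ad (ad (x 0) (x 0)) (one M)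
  have one_fun : ∀ x y : Fin 1 → M, x = y ↔ x 0 = y 0 := by
    intro x y
    constructor
    · rintro rfl; rfl
    · intro h; funext i; fin_cases i; exact h
  have hE : Dfn M (Set.range fE) := by
    have h1 : (univ : Set M).Definable L
        {v : Fin 1 ⊕ Fin 1 → M | ad (v (Sum.inr 0)) (v (Sum.inr 0)) = v (Sum.inl 0)} := by
      refine dfn_of_formula _ (Language.Term.equal (tadd (Language.Term.var (Sum.inr 0))
        (Language.Term.var (Sum.inr 0))) (Language.Term.var (Sum.inl 0))) _ fun v => ?_
      simp [Language.Formula.realize_equal, realize_add]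
    have h2 := h1.image_comp_sumInl_fin
    convert! h2 using 1
    ext x
    constructor
    · rintro ⟨y, rfl⟩
      exact ⟨Sum.elim (fE y) y, rfl, by funext i; rfl⟩
    · rintro ⟨v, hv, rfl⟩
      refine ⟨v ∘ Sum.inr, ?_⟩
      rw [one_fun]
      exact hv
  have hO : Dfn M (Set.range fO) := by
    have h1 : (univ : Set M).Definable L {v : Fin 1 ⊕ Fin 1 → M |
        ad (ad (v (Sum.inr 0)) (v (Sum.inr 0))) (one M) = v (Sum.inl 0)} := by
      refine dfn_of_formula _ (Language.Term.equal (tadd (tadd (Language.Term.var (Sum.inr 0))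
        (Language.Term.var (Sum.inr 0))) tone) (Language.Term.var (Sum.inl 0))) _ fun v => ?_
      simp [Language.Formula.realize_equal, realize_add, realize_one]
    have h2 := h1.image_comp_sumInl_fin
    convert! h2 using 1
    ext x
    constructor
    · rintro ⟨y, rfl⟩
      exact ⟨Sum.elim (fO y) y, rfl, by funext i; rfl⟩
    · rintro ⟨v, hv, rfl⟩
      refine ⟨v ∘ Sum.inr, ?_⟩
      rw [one_fun]
      exact hv
  have hEv : μ.h 1 univ = μ.h 1 (Set.range fE) := by
    refine μ.bij F univ _ fE ⟨fun _ => one M, trivial⟩ dfn_univ hE (by simp) ?_ ?_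
    · intro x _ y _ hxy
      rw [one_fun]
      exact F.dbl_inj _ _ (congrFun hxy 0)
    · refine dfn_of_formula _ (Language.Term.equal (tadd (Language.Term.var (Sum.inl 0))
        (Language.Term.var (Sum.inl 0))) (Language.Term.var (Sum.inr 0))) _ fun v => ?_
      simp [Language.Formula.realize_equal, realize_add, one_fun, fE]
  have hOv : μ.h 1 univ = μ.h 1 (Set.range fO) := by
    refine μ.bij F univ _ fO ⟨fun _ => one M, trivial⟩ dfn_univ hO (by simp) ?_ ?_
    · intro x _ y _ hxy
      rw [one_fun]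
      exact F.dbl1_inj _ _ (congrFun hxy 0)
    · refine dfn_of_formula _ (Language.Term.equal (tadd (tadd (Language.Term.var (Sum.inl 0))
        (Language.Term.var (Sum.inl 0))) tone) (Language.Term.var (Sum.inr 0))) _ fun v => ?_
      simp [Language.Formula.realize_equal, realize_add, realize_one, one_fun, fO]
  have hdis : Disjoint (Set.range fE) (Set.range fO) := by
    rw [Set.disjoint_left]
    rintro _ ⟨x, rfl⟩ ⟨y, hy⟩
    exact F.disj (x 0) (y 0) (congrFun hy 0).symm
  have hcov : Set.range fE ∪ Set.range fO = univ := by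
    rw [Set.eq_univ_iff_forall]
    intro x
    obtain ⟨y, hy | hy⟩ := F.cover (x 0)
    · exact Or.inl ⟨fun _ => y, by rw [one_fun]; exact hy⟩
    · exact Or.inr ⟨fun _ => y, by rw [one_fun]; exact hy⟩
  have two : ∀ A B : Set (Fin 1 → M), A.Nonempty → B.Nonempty → Dfn M A → Dfn M B →
      Disjoint A B → A ∪ B = univ → μ.h 1 univ = dsum ![μ.h 1 A, μ.h 1 B] := by
    intro A B hA hB hdA hdB hAB hun
    have h := μ.additive F (r := 2) (by norm_num) univ ![A, B] ?_ ?_ ?_ ?_
    · rw [h]
      congr 1
      funext i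
      fin_cases i <;> rfl
    · intro i; fin_cases i
      · exact hA
      · exact hB
    · intro i; fin_cases i
      · exact hdA
      · exact hdB
    · intro i j hij
      fin_cases i <;> fin_cases j
      · exact absurd rfl hij
      · exact hAB
      · exact hAB.symm
      · exact absurd rfl hij
    · rw [← hun]
      ext x
      simp [Set.mem_iUnion]
  have h1 := two (Set.range fE) (Set.range fO) ⟨_, Set.mem_range_self fun _ => one M⟩
    ⟨_, Set.mem_range_self fun _ => one M⟩ hE hO hdis hcov
  rw [← hEv, ← hOv] at h1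
  have h2 : μ.h 1 univ = (0, 0) := by
    rcases μ.range 1 le_rfl univ dfn_univ with h | h
    · exfalso
      have h3 := congrArg Prod.snd h1
      simp only [dsum] at h3
      rw [Finset.filter_true_of_mem] at h3
      · simp at h3
        linarith
      · intro i _
        fin_cases i <;> simp [Fin.univ_succ]
    · exact h
  -- the value is not `(0, 0)`
  let e0 : Fin 1 → M := fun _ => one M
  have hsing : Dfn M ({e0} : Set (Fin 1 → M)) := by
    refine dfn_of_formula _ (Language.Term.equal (Language.Term.var 0) tone) _ fun v => ?_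
    simp [Language.Formula.realize_equal, realize_one, one_fun, e0]
  have hcompl : Dfn M ({e0}ᶜ : Set (Fin 1 → M)) := Set.Definable.compl hsing
  have h3 := two {e0} {e0}ᶜ ⟨_, rfl⟩ ⟨fun _ => ad (one M) (one M), fun h =>
    F.ne (congrFun h 0).symm⟩ hsing hcompl disjoint_compl_right (Set.union_compl_self _)
  rw [μ.finite_sets 1 le_rfl {e0} (Set.finite_singleton _), Set.ncard_singleton, h2] at h3
  have hpos : 0 < (μ.h 1 {e0}ᶜ).2 ∨ μ.h 1 {e0}ᶜ = (0, 0) := μ.range 1 le_rfl _ hcompl
  have h4 := congrArg Prod.snd h3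
  simp only [dsum] at h4
  have h5 : (Finset.univ.sup fun i : Fin 2 => (![((0 : ℕ), ((1 : ℕ) : ℝ)), μ.h 1 {e0}ᶜ] i).1) =
      (μ.h 1 {e0}ᶜ).1 := by
    simp [Fin.univ_succ]
  rw [h5, Finset.sum_filter, Fin.sum_univ_two] at h4
  simp only [Matrix.cons_val_zero, Matrix.cons_val_one, if_true] at h4
  rcases hpos with h | h
  · have h6 : (0 : ℝ) ≤ if 0 = (μ.h 1 {e0}ᶜ).1 then 1 else 0 := by split_ifs <;> norm_num
    simp only [Nat.cast_one] at h4
    linarith
  · rw [h] at h4
    simp at h4

end Contradiction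

/-- **The theory `T_Sqf` is not MS-measurable**: no model of it carries a measuring function. -/
theorem result : ¬ MSMeasurable.{u} TSqf := by
  rintro ⟨M, _, hne, hM, ⟨μ⟩⟩
  exact not_measure (facts M hM) μ

end Pool.Agent.Results.MP_c6a6a6_lc.NotMSMeasurable
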